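import Pool.Agent.X33.VG.Count

set_option autoImplicit false

/-!
# The number of visibility graphs of simple polygons is `2 ^ Θ(n log n)`

Lower bound: a wide hall below a monotone upper chain with `m` triangular pockets. Through its
window, the apex of the pocket `i` sees an interval of the vertices on the bottom of the hall,
whose two ends can be chosen freely and independently for each pocket, in `B` ways each. These are
`B ^ (2 m)` labelled graphs, and at most `n ^ (m + 2 B)` of them are isomorphic to a given graph,
since such a graph is determined by the images of the `m` apexes and of the `2 B` bottom vertices.
With `B` and `m` of order `n` and `m = 4 B` this gives `n ^ (c n)` isomorphism classes.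

Upper bound: the visibility graph is determined by the side of the interior and the signs of
polynomials of degree two in the coordinates of three vertices, and Warren's bound for the number
of sign vectors applies.
-/

namespace Pool.Agent.Results.MP_af711c_co.LogOrder

open Vis124 Pool.Agent.X33.VG

/-- For `n ≥ 2 ^ 64`, the base two logarithm of the number `N n` of isomorphism classes of
visibility graphs of simple polygons with `n` vertices lies between `n log₂ n / 256` and
`17 n log₂ n`. The lower bound holds already for the number `NStrict n` of isomorphism classes of
visibility graphs of simple polygons with `n` vertices none of whose angles is straight. -/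
theorem result (n : ℕ) (hn : 2 ^ 64 ≤ n) :
    1 / 256 * (n * Real.logb 2 n) ≤ Real.logb 2 (NStrict n) ∧ NStrict n ≤ N n ∧
      Real.logb 2 (N n) ≤ 17 * (n * Real.logb 2 n) := by
  have h1 := lower hn
  have h3 : 3 ≤ n := le_trans (by norm_num) hn
  have hpos : 0 < NStrict n := by
    by_contra h
    have h0 : NStrict n = 0 := by omega
    rw [h0, Nat.cast_zero, Real.logb_zero] at h1
    have h4 : (3 : ℝ) ≤ n := by exact_mod_cast h3
    have h5 : 0 < Real.logb 2 (n : ℝ) := Real.logb_pos (by norm_num) (by linarith)
    have : 0 < (n : ℝ) / 256 * Real.logb 2 n := by positivity
    linarith
  have h2 := NStrict_le n
  exact ⟨by linarith, h2, upper h3 (by omega)⟩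

end Pool.Agent.Results.MP_af711c_co.LogOrder
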